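import Mathlib

/-!
Commuting graphs of normal sets of involutions: definitions and elementary facts.
-/

set_option autoImplicit false

namespace Pool.Agent.Paf8U

/-- The commuting graph on a set `D` of elements of a group: distinct elements are joined when
they commute. -/
def commGraph {G : Type} [Group G] (D : Set G) : SimpleGraph D where
  Adj a b := a ≠ b ∧ (a : G) * b = b * a
  symm := ⟨fun _ _ h => ⟨h.1.symm, h.2.symm⟩⟩
  loopless := ⟨fun _ h => h.1 rfl⟩

/-- A nonempty normal set of involutions. -/
def IsNormalInvolutionSet {G : Type} [Group G] (D : Set G) : Prop :=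
  D.Nonempty ∧ (∀ d ∈ D, orderOf d = 2) ∧ ∀ d ∈ D, ∀ g : G, g⁻¹ * d * g ∈ D

variable {G H : Type} [Group G] [Group H]

theorem reach_of_commute {D : Set G} (a b : D) (h : (a : G) * b = b * a) :
    (commGraph D).Reachable a b := by
  by_cases hab : a = b
  · rw [hab]
  · exact SimpleGraph.Adj.reachable ⟨hab, h⟩

/-- a function constant on commuting pairs is constant on components -/
theorem const_of_reach {α : Type} {D : Set G} (f : G → α)
    (hf : ∀ a ∈ D, ∀ b ∈ D, a * b = b * a → f a = f b) {a b : D}
    (h : (commGraph D).Reachable a b) : f a = f b := by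
  obtain ⟨w⟩ := h
  induction w with
  | nil => rfl
  | cons hadj _ ih => exact (hf _ (Subtype.property _) _ (Subtype.property _) hadj.2).trans ih

end Pool.Agent.Paf8U
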