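import Pool.Agent.Lib.Paf8U.Defs

/-!
# Every pair is covered by a pair whose commuting graph is a disjoint union of cliques

Let `G₀` be a finite group acting on the finite set `X`, `D₀` a normal set of involutions such that every `d ∈ D₀` has a
fixed point and two different commuting elements of `D₀` have no common fixed point (for example `X` = the disjoint union of
the `G₀ / ⟨d⟩`). In the semidirect product of the functions `X → {±1}` and `G₀` take the pairs `(α, d)`, `d ∈ D₀`, `α`
invariant under `d` and with product `-1` over the fixed points of `d`. They form a normal set of involutions, and two of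
them commute if and only if they have the same second component: if `(α, d)`, `(β, e)` commute, `d ≠ e`, then `d`, `e`
commute and `α` is `e`-invariant on the fixed points of `d`, on which `e` acts without fixed points, so that the product of
`α` over them is a product of squares.
-/

set_option autoImplicit false

open Classical

namespace Pool.Agent.Paf8U

theorem mem_cj_iff {G : Type} [Group G] {a b : G} : b ∈ conjugatesOf a ↔ IsConj a b := Iff.rfl

namespace CoverAux

variable {G₀ : Type} [Group G₀] {X : Type} [MulAction G₀ X]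

/-- the action on the functions -/
def act : G₀ →* MulAut (X → ℤˣ) where
  toFun g :=
    { toFun := fun f x => f (g⁻¹ • x)
      invFun := fun f x => f (g • x)
      left_inv := fun f => by funext x; simp
      right_inv := fun f => by funext x; simp
      map_mul' := fun f h => rfl }
  map_one' := by ext f x; simp
  map_mul' := by intro g h; ext f x; simp [mul_smul]

/-- the covering group -/
abbrev E (G₀ X : Type) [Group G₀] [MulAction G₀ X] : Type := (X → ℤˣ) ⋊[act (G₀ := G₀) (X := X)] G₀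

lemma left_mul (a b : E G₀ X) (x : X) : (a * b).left x = a.left x * b.left (a.right⁻¹ • x) := by
  rw [SemidirectProduct.mul_left]
  rfl

lemma left_inv (a : E G₀ X) (x : X) : (a⁻¹).left x = (a.left (a.right • x))⁻¹ := by
  rw [SemidirectProduct.inv_left]
  show (a.left⁻¹) ((a.right⁻¹)⁻¹ • x) = _
  rw [inv_inv]
  rfl

/-- the cover of the set of involutions -/
def Ds [Fintype X] (D₀ : Set G₀) : Set (E G₀ X) :=
  {a | a.right ∈ D₀ ∧ (∀ x, a.left (a.right • x) = a.left x) ∧
    ∏ x ∈ Finset.univ.filter (fun x => a.right • x = x), a.left x = -1}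

variable [Fintype X] {D₀ : Set G₀}

lemma inv_eq {d : G₀} (h : orderOf d = 2) : d⁻¹ = d := by
  apply inv_eq_of_mul_eq_one_right
  rw [← pow_two, ← h, pow_orderOf_eq_one]

lemma ds_order (h2 : ∀ d ∈ D₀, orderOf d = 2) (a : E G₀ X) (ha : a ∈ Ds D₀) : orderOf a = 2 := by
  obtain ⟨h1, h3, -⟩ := ha
  have hi := inv_eq (h2 _ h1)
  apply orderOf_eq_prime
  · rw [pow_two]
    apply SemidirectProduct.ext
    · funext x
      rw [left_mul, hi, h3]
      exact Int.units_mul_self _
    · rw [SemidirectProduct.mul_right, SemidirectProduct.one_right, ← pow_two, ← h2 _ h1,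
        pow_orderOf_eq_one]
  · rintro rfl
    have h4 := h2 _ h1
    rw [SemidirectProduct.one_right, orderOf_one] at h4
    omega

lemma ds_conj (h2 : ∀ d ∈ D₀, orderOf d = 2) (hn : ∀ d ∈ D₀, ∀ g : G₀, g⁻¹ * d * g ∈ D₀)
    (a : E G₀ X) (ha : a ∈ Ds D₀) (g : E G₀ X) : g⁻¹ * a * g ∈ Ds D₀ := by
  obtain ⟨h1, h3, h4⟩ := ha
  have hi := inv_eq (h2 _ h1)
  set e : G₀ := g.right⁻¹ * a.right * g.right with he
  have hr : (g⁻¹ * a * g).right = e := by
    rw [SemidirectProduct.mul_right, SemidirectProduct.mul_right, SemidirectProduct.inv_right]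
  have hl : ∀ x, (g⁻¹ * a * g).left x =
      (g.left (g.right • x))⁻¹ * a.left (g.right • x) * g.left (a.right • g.right • x) := by
    intro x
    rw [left_mul, left_mul, left_inv, SemidirectProduct.mul_right, SemidirectProduct.inv_right, inv_inv,
      mul_inv_rev, inv_inv, hi, mul_smul]
  have hed : e ∈ D₀ := hn _ h1 _
  refine ⟨by rw [hr]; exact hed, fun x => ?_, ?_⟩
  · rw [hr, hl, hl]
    have e1 : g.right • e • x = a.right • g.right • x := by
      rw [he, ← mul_smul, ← mul_smul]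
      congr 1
      group
    have e2 : a.right • a.right • g.right • x = g.right • x := by
      rw [← mul_smul]
      nth_rewrite 1 [← hi]
      rw [inv_mul_cancel, one_smul]
    rw [e1, h3, e2]
    rw [mul_assoc, mul_assoc, mul_comm (a.left (g.right • x)) (g.left _),
      mul_comm (a.left (g.right • x)) (g.left _), ← mul_assoc, ← mul_assoc]
    congr 1
    rw [Int.units_inv_eq_self, Int.units_inv_eq_self, mul_comm]
  · rw [← h4]
    refine Finset.prod_bij (fun x _ => g.right • x) ?_ ?_ ?_ ?_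
    · intro x hx
      rw [Finset.mem_filter, hr] at hx
      rw [Finset.mem_filter]
      refine ⟨Finset.mem_univ _, ?_⟩
      have e1 : a.right • g.right • x = g.right • e • x := by
        rw [he, ← mul_smul, ← mul_smul]
        congr 1
        group
      rw [e1, hx.2]
    · intro x _ y _ h
      exact (MulAction.injective g.right) h
    · intro y hy
      rw [Finset.mem_filter] at hy
      refine ⟨g.right⁻¹ • y, ?_, by simp⟩
      rw [Finset.mem_filter, hr]
      refine ⟨Finset.mem_univ _, ?_⟩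
      rw [he, mul_smul, mul_smul, smul_inv_smul, hy.2]
    · intro x hx
      rw [Finset.mem_filter, hr] at hx
      rw [hl]
      have e1 : a.right • g.right • x = g.right • x := by
        have : a.right • g.right • x = g.right • e • x := by
          rw [he, ← mul_smul, ← mul_smul]
          congr 1
          group
        rw [this, hx.2]
      rw [e1, mul_comm (g.left (g.right • x))⁻¹, mul_assoc, inv_mul_cancel, mul_one]

lemma ds_same {a b : E G₀ X} (h2 : ∀ d ∈ D₀, orderOf d = 2) (ha : a ∈ Ds D₀) (hb : b ∈ Ds D₀)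
    (h : a.right = b.right) : a * b = b * a := by
  obtain ⟨a1, a3, -⟩ := ha
  obtain ⟨b1, b3, -⟩ := hb
  have hia := inv_eq (h2 _ a1)
  have hib := inv_eq (h2 _ b1)
  apply SemidirectProduct.ext
  · funext x
    rw [left_mul, left_mul, hia, hib, h, b3, ← h, a3, mul_comm]
  · rw [SemidirectProduct.mul_right, SemidirectProduct.mul_right, h]

lemma ds_diff {a b : E G₀ X} (h2 : ∀ d ∈ D₀, orderOf d = 2)
    (hX : ∀ d ∈ D₀, ∀ e ∈ D₀, d * e = e * d → d ≠ e → ∀ x : X, d • x = x → e • x ≠ x)
    (ha : a ∈ Ds D₀) (hb : b ∈ Ds D₀)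
    (h : a * b = b * a) : a.right = b.right := by
  by_contra hne
  obtain ⟨a1, a3, a4⟩ := ha
  obtain ⟨b1, b3, b4⟩ := hb
  have hia := inv_eq (h2 _ a1)
  have hib := inv_eq (h2 _ b1)
  have hc : a.right * b.right = b.right * a.right := by
    have := congrArg SemidirectProduct.right h
    rwa [SemidirectProduct.mul_right, SemidirectProduct.mul_right] at this
  have hl : ∀ x, a.left x * b.left (a.right • x) = b.left x * a.left (b.right • x) := by
    intro x
    have := congrFun (congrArg SemidirectProduct.left h) x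
    rwa [left_mul, left_mul, hia, hib] at this
  have hfix : ∏ x ∈ Finset.univ.filter (fun x => a.right • x = x), a.left x = 1 := by
    refine Finset.prod_involution (fun x _ => b.right • x) ?_ ?_ ?_ ?_
    · intro x hx
      rw [Finset.mem_filter] at hx
      have h1 := hl x
      rw [hx.2, mul_comm (b.left x)] at h1
      have h3 : a.left x = a.left (b.right • x) := mul_right_cancel h1
      rw [← h3]
      exact Int.units_mul_self _
    · intro x hx _
      rw [Finset.mem_filter] at hx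
      exact hX _ a1 _ b1 hc hne x hx.2
    · intro x hx
      rw [Finset.mem_filter] at hx ⊢
      refine ⟨Finset.mem_univ _, ?_⟩
      rw [← mul_smul, hc, mul_smul, hx.2]
    · intro x _
      rw [← mul_smul]
      nth_rewrite 1 [← hib]
      rw [inv_mul_cancel, one_smul]
  rw [hfix] at a4
  exact absurd a4 (by decide)

lemma ds_image (hX : ∀ d ∈ D₀, ∃ x : X, d • x = x) :
    (SemidirectProduct.rightHom : E G₀ X →* G₀) '' Ds D₀ = D₀ := by
  ext d
  constructor
  · rintro ⟨a, ha, rfl⟩
    exact ha.1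
  · intro hd
    obtain ⟨x0, hx0⟩ := hX d hd
    refine ⟨⟨fun x => if x = x0 then -1 else 1, d⟩, ⟨hd, fun x => ?_, ?_⟩, rfl⟩
    · show (if d • x = x0 then (-1 : ℤˣ) else 1) = if x = x0 then -1 else 1
      have : d • x = x0 ↔ x = x0 := by
        constructor
        · intro h
          rw [← hx0] at h
          exact MulAction.injective d h
        · rintro rfl; exact hx0
      simp only [this]
    · show ∏ x ∈ Finset.univ.filter (fun x => d • x = x), (if x = x0 then (-1 : ℤˣ) else 1) = -1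
      rw [Finset.prod_ite_eq' (Finset.univ.filter (fun x => d • x = x)) x0 (fun _ => (-1 : ℤˣ)),
        if_pos]
      rw [Finset.mem_filter]
      exact ⟨Finset.mem_univ _, hx0⟩

lemma mem_two {f x : G₀} (hf : orderOf f = 2) (hx : x ∈ Subgroup.zpowers f) : x = 1 ∨ x = f := by
  obtain ⟨k, rfl⟩ := hx
  show f ^ k = 1 ∨ f ^ k = f
  rw [← zpow_mod_orderOf, hf]
  rcases Int.emod_two_eq_zero_or_one k with h | h
  · left
    have : k % ((2 : ℕ) : ℤ) = 0 := by exact_mod_cast h
    rw [this, zpow_zero]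
  · right
    have : k % ((2 : ℕ) : ℤ) = 1 := by exact_mod_cast h
    rw [this, zpow_one]

lemma fix_coset {f d g : G₀} (hf : orderOf f = 2) (hd : orderOf d = 2)
    (h : d • ((g : G₀) : G₀ ⧸ Subgroup.zpowers f) = (g : G₀ ⧸ Subgroup.zpowers f)) :
    d = g * f * g⁻¹ := by
  rw [MulAction.Quotient.smul_coe, smul_eq_mul, QuotientGroup.eq] at h
  have hi := inv_eq hd
  rcases mem_two hf h with h1 | h1
  · exfalso
    have h3 : g = d * g := by
      rw [inv_mul_eq_one] at h1
      exact h1.symm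
    have h2 : d = 1 := by
      have h4 : d * g = 1 * g := by rw [one_mul]; exact h3.symm
      exact mul_right_cancel h4
    rw [h2, orderOf_one] at hd
    omega
  · rw [mul_inv_rev, hi] at h1
    rw [← h1]
    group

end CoverAux

open CoverAux

/-- the universal cover, all data -/
theorem cover {G₀ : Type} [Group G₀] [Finite G₀] (D₀ : Set G₀) (hD₀ : IsNormalInvolutionSet D₀) :
    ∃ (E : Type) (_ : Group E) (_ : Finite E) (D : Set E) (π : E →* G₀),
      IsNormalInvolutionSet D ∧ Function.Surjective π ∧ π '' D = D₀ ∧ (∀ x ∈ π.ker, x * x = 1) ∧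
      ∀ a ∈ D, ∀ b ∈ D, (a * b = b * a ↔ π a = π b) := by
  obtain ⟨hne, h2, hn⟩ := hD₀
  let X : Type := Σ d : D₀, G₀ ⧸ Subgroup.zpowers (d : G₀)
  have : Finite X := inferInstance
  have : Fintype X := Fintype.ofFinite X
  have hX1 : ∀ d ∈ D₀, ∃ x : X, d • x = x := by
    intro d hd
    refine ⟨⟨⟨d, hd⟩, ((1 : G₀) : G₀ ⧸ Subgroup.zpowers d)⟩, ?_⟩
    rw [Sigma.smul_mk]
    congr 1
    rw [MulAction.Quotient.smul_coe, smul_eq_mul, mul_one, QuotientGroup.eq, mul_one]
    exact Subgroup.inv_mem _ (Subgroup.mem_zpowers d)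
  have hX2 : ∀ d ∈ D₀, ∀ e ∈ D₀, d * e = e * d → d ≠ e → ∀ x : X, d • x = x → e • x ≠ x := by
    rintro d hd e he - hde ⟨f, q⟩ h1 h3
    obtain ⟨g, rfl⟩ := QuotientGroup.mk_surjective q
    apply hde
    rw [Sigma.smul_mk] at h1 h3
    have h4 := eq_of_heq (Sigma.mk.inj h1).2
    have h5 := eq_of_heq (Sigma.mk.inj h3).2
    rw [fix_coset (h2 _ f.2) (h2 _ hd) h4, fix_coset (h2 _ f.2) (h2 _ he) h5]
  have hfin : Finite (CoverAux.E G₀ X) := Finite.of_equiv _ SemidirectProduct.equivProd.symm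
  have himg := ds_image (D₀ := D₀) hX1
  refine ⟨CoverAux.E G₀ X, inferInstance, hfin, Ds D₀, SemidirectProduct.rightHom, ⟨?_, ?_, ?_⟩, ?_, ?_,
    ?_, ?_⟩
  · rw [← himg] at hne
    exact Set.image_nonempty.1 hne
  · exact fun a ha => ds_order h2 a ha
  · exact fun a ha g => ds_conj h2 hn a ha g
  · exact SemidirectProduct.rightHom_surjective
  · exact himg
  · intro x hx
    have hx' : x.right = 1 := hx
    apply SemidirectProduct.ext
    · funext y
      rw [left_mul, hx', inv_one, one_smul]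
      exact Int.units_mul_self _
    · rw [SemidirectProduct.mul_right, hx', mul_one]
      rfl
  · intro a ha b hb
    exact ⟨fun h => ds_diff h2 hX2 ha hb h, fun h => ds_same h2 ha hb h⟩

/-- the cover generated by its involutions, with one class over every class -/
theorem cover_gen {G₀ : Type} [Group G₀] [Finite G₀] (D₀ : Set G₀) (hD₀ : IsNormalInvolutionSet D₀)
    (hgen : Subgroup.closure D₀ = ⊤) :
    ∃ (E : Type) (_ : Group E) (_ : Finite E) (D : Set E) (π : E →* G₀),
      IsNormalInvolutionSet D ∧ Subgroup.closure D = ⊤ ∧ Function.Surjective π ∧ π '' D = D₀ ∧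
      (∀ x ∈ π.ker, x * x = 1) ∧ (∀ a ∈ D, ∀ b ∈ D, (a * b = b * a ↔ π a = π b)) ∧
      ∀ a ∈ D, ∀ b ∈ D, (IsConj a b ↔ IsConj (π a) (π b)) := by
  obtain ⟨E, _, _, D, π, ⟨h1, h2, h3⟩, h4, h5, h6, h7⟩ := cover D₀ hD₀
  -- a minimal subgroup
  have hex : ∃ n : ℕ, ∃ M : Subgroup E, M.map π = ⊤ ∧ (∀ c ∈ D₀, ∃ a ∈ D, a ∈ M ∧ π a = c) ∧
      Nat.card M = n := by
    refine ⟨_, ⊤, ?_, ?_, rfl⟩
    · rw [← MonoidHom.range_eq_map]
      exact MonoidHom.range_eq_top.2 h4
    · intro c hc
      rw [← h5] at hc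
      obtain ⟨a, ha, hac⟩ := hc
      exact ⟨a, ha, Subgroup.mem_top _, hac⟩
  obtain ⟨M, hM1, hM2, hMc⟩ := Nat.find_spec hex
  have hmin : ∀ K : Subgroup E, K ≤ M → K.map π = ⊤ → (∀ c ∈ D₀, ∃ a ∈ D, a ∈ K ∧ π a = c) → K = M := by
    intro K hK hK1 hK2
    have h8 : Nat.find hex ≤ Nat.card K := Nat.find_min' hex ⟨K, hK1, hK2, rfl⟩
    rw [← hMc] at h8
    exact Subgroup.eq_of_le_of_card_ge hK h8
  have hsurM : ∀ g : G₀, ∃ m ∈ M, π m = g := by
    intro g
    have : g ∈ M.map π := by rw [hM1]; exact Subgroup.mem_top _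
    exact this
  -- representatives of the classes
  let r : G₀ → G₀ := fun c => Quotient.out (ConjClasses.mk c)
  have hr : ∀ c, IsConj (r c) c := by
    intro c
    rw [← ConjClasses.mk_eq_mk_iff_isConj]
    exact Quotient.out_eq (ConjClasses.mk c)
  have hrr : ∀ c c' : G₀, IsConj c c' → r c = r c' := by
    intro c c' h
    show Quotient.out (ConjClasses.mk c) = Quotient.out (ConjClasses.mk c')
    rw [ConjClasses.mk_eq_mk_iff_isConj.2 h]
  have hconjD : ∀ c ∈ D₀, ∀ c' : G₀, IsConj c c' → c' ∈ D₀ := by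
    intro c hc c' h
    obtain ⟨g, hg⟩ := isConj_iff.1 h
    have := hD₀.2.2 c hc g⁻¹
    rw [inv_inv, hg] at this
    exact this
  have hrD : ∀ c ∈ D₀, r c ∈ D₀ := fun c hc => hconjD c hc _ (hr c).symm
  have hch : ∀ c : G₀, ∃ a : E, c ∈ D₀ → (a ∈ D ∧ a ∈ M ∧ π a = c) := by
    intro c
    by_cases hc : c ∈ D₀
    · obtain ⟨a, h8, h9, h10⟩ := hM2 c hc
      exact ⟨a, fun _ => ⟨h8, h9, h10⟩⟩
    · exact ⟨1, fun h => absurd h hc⟩
  choose f hf using hch
  set S : Set E := {x | ∃ c ∈ D₀, ∃ m ∈ M, x = m * f (r c) * m⁻¹} with hS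
  have hSM : S ⊆ M := by
    rintro _ ⟨c, hc, m, hm, rfl⟩
    exact M.mul_mem (M.mul_mem hm (hf _ (hrD c hc)).2.1) (M.inv_mem hm)
  have hSD : S ⊆ D := by
    rintro _ ⟨c, hc, m, hm, rfl⟩
    have := h3 _ (hf _ (hrD c hc)).1 m⁻¹
    rwa [inv_inv] at this
  have hSim : ∀ c ∈ D₀, ∃ x ∈ S, π x = c := by
    intro c hc
    obtain ⟨g, hg⟩ := isConj_iff.1 (hr c)
    obtain ⟨m, hm, hmc⟩ := hsurM g
    refine ⟨m * f (r c) * m⁻¹, ⟨c, hc, m, hm, rfl⟩, ?_⟩
    rw [map_mul, map_mul, map_inv, hmc, (hf _ (hrD c hc)).2.2, hg]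
  have hK : Subgroup.closure S = M := by
    refine hmin _ ((Subgroup.closure_le _).2 hSM) ?_ ?_
    · rw [MonoidHom.map_closure, ← top_le_iff, ← hgen]
      apply Subgroup.closure_mono
      intro c hc
      exact hSim c hc
    · intro c hc
      obtain ⟨x, hx, hxc⟩ := hSim c hc
      exact ⟨x, hSD hx, Subgroup.subset_closure hx, hxc⟩
  refine ⟨M, inferInstance, inferInstance, {a | (a : E) ∈ S}, π.comp M.subtype, ⟨?_, ?_, ?_⟩, ?_, ?_, ?_, ?_,
    ?_, ?_⟩
  · obtain ⟨c, hc⟩ := hD₀.1
    obtain ⟨x, hx, -⟩ := hSim c hc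
    exact ⟨⟨x, hSM hx⟩, hx⟩
  · intro a ha
    rw [← Subgroup.orderOf_coe]
    exact h2 _ (hSD ha)
  · rintro ⟨a, haM⟩ ⟨c, hc, m, hm, hamc⟩ g
    refine ⟨c, hc, (g : E)⁻¹ * m, M.mul_mem (M.inv_mem g.2) hm, ?_⟩
    show (g : E)⁻¹ * a * g = _
    have hamc' : a = m * f (r c) * m⁻¹ := hamc
    rw [hamc']
    group
  · rw [eq_top_iff]
    have h8 : M ≤ (Subgroup.closure {a : M | (a : E) ∈ S}).map M.subtype := by
      nth_rewrite 1 [← hK]
      rw [Subgroup.closure_le]
      intro d hd
      exact ⟨⟨d, hSM hd⟩, Subgroup.subset_closure hd, rfl⟩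
    rintro ⟨x, hx⟩ -
    obtain ⟨y, hy, hyx⟩ := h8 hx
    have : y = ⟨x, hx⟩ := Subtype.ext hyx
    rwa [← this]
  · intro g
    obtain ⟨m, hm, hmg⟩ := hsurM g
    exact ⟨⟨m, hm⟩, hmg⟩
  · ext d
    constructor
    · rintro ⟨a, ha, rfl⟩
      rw [← h5]
      exact ⟨a, hSD ha, rfl⟩
    · intro hd
      obtain ⟨x, hx, rfl⟩ := hSim d hd
      exact ⟨⟨x, hSM hx⟩, hx, rfl⟩
  · rintro ⟨x, hx⟩ hxk
    apply Subtype.ext
    exact h6 x hxk
  · rintro ⟨a, ha'⟩ ha ⟨b, hb'⟩ hb
    have h8 := h7 a (hSD ha) b (hSD hb)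
    constructor
    · intro h
      exact h8.1 (congrArg Subtype.val h)
    · intro h
      exact Subtype.ext (h8.2 h)
  · rintro ⟨a, ha'⟩ ⟨c, hc, m, hm, hamc⟩ ⟨b, hb'⟩ ⟨c', hc', m', hm', hbmc⟩
    have hamc0 : a = m * f (r c) * m⁻¹ := hamc
    have hbmc0 : b = m' * f (r c') * m'⁻¹ := hbmc
    constructor
    · intro h
      exact (π.comp M.subtype).map_isConj h
    · intro h
      have ha1 : IsConj c (π a) := by
        rw [hamc0, map_mul, map_mul, map_inv, (hf _ (hrD c hc)).2.2]
        exact (hr c).symm.trans (isConj_iff.2 ⟨π m, rfl⟩)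
      have hb1 : IsConj c' (π b) := by
        rw [hbmc0, map_mul, map_mul, map_inv, (hf _ (hrD c' hc')).2.2]
        exact (hr c').symm.trans (isConj_iff.2 ⟨π m', rfl⟩)
      have h8 : IsConj c c' := (ha1.trans h).trans hb1.symm
      have h9 := hrr c c' h8
      rw [isConj_iff]
      refine ⟨⟨m', hm'⟩ * ⟨m, hm⟩⁻¹, ?_⟩
      apply Subtype.ext
      show (m' * m⁻¹) * a * (m' * m⁻¹)⁻¹ = b
      rw [hamc0, hbmc0, h9]
      group

end Pool.Agent.Paf8U
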