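import Pool.Agent.Lib.Paf8U.Odd

/-!
# Normal sets of involutions with an element in the centre of a Sylow 2-subgroup

(1) `Γ(D)` is disconnected if and only if `G` has a transitive action on more than one point in which every element of `D`
has exactly one fixed point: the action on the components. (2) For `G` soluble: if and only if the group generated by `D` has
a dihedral quotient of order `2 p`, `p` an odd prime, in which all elements of `D` are reflections.
-/

set_option autoImplicit false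

namespace Pool.Agent.Paf8U

/-- an element of `D` is in the centre of a Sylow 2-subgroup -/
def HasCentral {G : Type} [Group G] (D : Set G) : Prop :=
  ∃ d ∈ D, ∃ S : Sylow 2 G, d ∈ S ∧ ∀ s ∈ S, s * d = d * s

section tame

variable {G : Type} [Group G]

/-- the converse direction, in a form which also serves quotients -/
theorem fix_all {Ω : Type} [MulAction G Ω] {D : Set G} (hne : D.Nonempty)
    (hD : ∀ d ∈ D, ∀ g : G, g⁻¹ * d * g ∈ D) {N : Subgroup G} [N.Normal]
    (hN : ∀ n ∈ N, ∀ x : Ω, n • x = x)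
    (hu : ∀ d ∈ D, ∃! x : Ω, d • x = x)
    (hc : (commGraph ((QuotientGroup.mk' N) '' D)).Connected) :
    ∃ x₀ : Ω, (∀ g : G, g • x₀ = x₀) ∧ ∀ d ∈ D, ∀ x : Ω, d • x = x → x = x₀ := by
  classical
  obtain ⟨d₀, hd₀⟩ := hne
  obtain ⟨x₀, hx₀, hx₀u⟩ := hu d₀ hd₀
  have hNmk : ∀ a b : G, QuotientGroup.mk' N a = QuotientGroup.mk' N b → ∀ x : Ω, a • x = b • x := by
    intro a b hab x
    have h1 : a⁻¹ * b ∈ N := by
      rw [QuotientGroup.mk'_apply, QuotientGroup.mk'_apply, QuotientGroup.eq] at hab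
      exact hab
    have h2 := hN _ h1 x
    rw [mul_smul] at h2
    rw [← h2, smul_inv_smul, h2]
  -- the function
  let F : G ⧸ N → Ω := fun q =>
    if h : ∃ d ∈ D, QuotientGroup.mk' N d = q then (hu h.choose h.choose_spec.1).choose else x₀
  have hF : ∀ d ∈ D, ∀ x : Ω, d • x = x → F (QuotientGroup.mk' N d) = x := by
    intro d hd x hx
    have h : ∃ e ∈ D, QuotientGroup.mk' N e = QuotientGroup.mk' N d := ⟨d, hd, rfl⟩
    have h1 : F (QuotientGroup.mk' N d) = (hu h.choose h.choose_spec.1).choose := dif_pos h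
    rw [h1]
    have h2 := (hu h.choose h.choose_spec.1).choose_spec
    refine (h2.2 x ?_).symm
    show h.choose • x = x
    rw [hNmk _ _ h.choose_spec.2 x, hx]
  have hcomm : ∀ a ∈ (QuotientGroup.mk' N) '' D, ∀ b ∈ (QuotientGroup.mk' N) '' D, a * b = b * a →
      F a = F b := by
    rintro _ ⟨a, ha, rfl⟩ _ ⟨b, hb, rfl⟩ hab
    obtain ⟨x, hx, hxu⟩ := hu a ha
    obtain ⟨y, hy, hyu⟩ := hu b hb
    rw [hF a ha x hx, hF b hb y hy]
    apply hyu
    apply hxu
    rw [← map_mul, ← map_mul] at hab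
    have h1 := hNmk _ _ hab x
    rw [mul_smul, mul_smul, hx] at h1
    exact h1
  have hall : ∀ d ∈ D, ∀ x : Ω, d • x = x → x = x₀ := by
    intro d hd x hx
    have h1 := const_of_reach F hcomm (hc.preconnected ⟨_, d, hd, rfl⟩ ⟨_, d₀, hd₀, rfl⟩)
    rw [← hF d hd x hx, ← hF d₀ hd₀ x₀ hx₀]
    exact h1
  refine ⟨x₀, fun g => ?_, hall⟩
  have h1 : (g * d₀ * g⁻¹) • (g • x₀) = g • x₀ := by
    rw [← mul_smul, inv_mul_cancel_right, mul_smul, hx₀]
  have h2 : g * d₀ * g⁻¹ ∈ D := by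
    have := hD d₀ hd₀ g⁻¹
    rwa [inv_inv] at this
  exact hall _ h2 _ h1

theorem mk_fix {H : Subgroup G} (d x : G) : d • (x : G ⧸ H) = (x : G ⧸ H) ↔ x⁻¹ * d * x ∈ H := by
  rw [MulAction.Quotient.smul_coe, smul_eq_mul, eq_comm, QuotientGroup.eq, ← mul_assoc]

theorem top_of_fix {H : Subgroup G} {x₀ : G ⧸ H} (h : ∀ g : G, g • x₀ = x₀) : H = ⊤ := by
  obtain ⟨x, rfl⟩ := QuotientGroup.mk_surjective x₀
  rw [eq_top_iff]
  intro g _
  have h1 := h (x * g * x⁻¹)
  rw [mk_fix] at h1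
  have h2 : x⁻¹ * (x * g * x⁻¹) * x = g := by group
  rwa [h2] at h1

theorem not_connected_of_fix {D : Set G} (hne : D.Nonempty)
    (hD : ∀ d ∈ D, ∀ g : G, g⁻¹ * d * g ∈ D) {N : Subgroup G} [N.Normal] {H : Subgroup G}
    (hH : H ≠ ⊤) (hN : ∀ n ∈ N, ∀ x : G ⧸ H, n • x = x)
    (hu : ∀ d ∈ D, ∃! x : G ⧸ H, d • x = x) :
    ¬ (commGraph ((QuotientGroup.mk' N) '' D)).Connected := by
  intro hc
  obtain ⟨x₀, h1, -⟩ := fix_all hne hD hN hu hc
  exact hH (top_of_fix h1)

theorem connected_bot {D : Set G} (hc : (commGraph D).Connected) :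
    (commGraph ((QuotientGroup.mk' (⊥ : Subgroup G)) '' D)).Connected := connected_image _ hc

theorem sylow_conj {K : Type} [Group K] [Finite K] (P : Sylow 2 K) {x : K} (hx : orderOf x = 2) :
    ∃ h : K, h * x * h⁻¹ ∈ P := by
  have hz : IsPGroup 2 (Subgroup.zpowers x) := by
    rw [IsPGroup.iff_card]
    exact ⟨1, by rw [Nat.card_zpowers, pow_one, hx]⟩
  obtain ⟨Q, hQ⟩ := hz.exists_le_sylow
  obtain ⟨h, hh⟩ := MulAction.exists_smul_eq K Q P
  refine ⟨h, ?_⟩
  have h1 : h * x * h⁻¹ ∈ ((h • Q : Sylow 2 K) : Set K) := by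
    rw [Sylow.coe_smul]
    exact ⟨x, hQ (Subgroup.mem_zpowers x), rfl⟩
  rw [hh] at h1
  exact h1

/-- the criterion -/
theorem tame_forward [Finite G] {D : Set G} (hinv : ∀ d ∈ D, orderOf d = 2)
    (hD : ∀ d ∈ D, ∀ g : G, g⁻¹ * d * g ∈ D) (hcen : HasCentral D)
    (hnc : ¬ (commGraph D).Connected) :
    ∃ H : Subgroup G, H ≠ ⊤ ∧ (∀ d ∈ D, ∃! x : G ⧸ H, d • x = x) := by
  obtain ⟨d₀, hd₀, S, hdS, hS⟩ := hcen
  set e₀ : D := ⟨d₀, hd₀⟩ with he₀
  set H := stab hD e₀ with hH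
  have hSH : (S : Subgroup G) ≤ H := by
    intro s hs
    rw [hH, mem_stab]
    have : cj hD s e₀ = e₀ := by
      apply Subtype.ext
      show s * d₀ * s⁻¹ = d₀
      rw [hS s hs, mul_inv_cancel_right]
    rw [this]
  -- elements of `D` in `H` lie in the component
  have hcomp : ∀ d : D, (d : G) ∈ H → (commGraph D).Reachable e₀ d := by
    intro d hdH
    have ho : orderOf (⟨d, hdH⟩ : H) = 2 := by
      rw [← Subgroup.orderOf_coe]
      exact hinv d d.2
    obtain ⟨h, hh⟩ := sylow_conj (S.subtype hSH) ho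
    have h1 : ((cj hD (h : G) d : D) : G) ∈ S := hh
    have h2 : (commGraph D).Reachable e₀ (cj hD h d) := by
      apply reach_of_commute
      exact (hS _ h1).symm
    have h3 : (commGraph D).Reachable e₀ (cj hD (h : G)⁻¹ e₀) := (H.inv_mem h.2)
    have h4 := reach_cj hD (h : G)⁻¹ h2
    rw [← cj_mul, inv_mul_cancel, cj_one] at h4
    exact h3.trans h4
  refine ⟨H, ?_, fun d hd => ?_⟩
  · intro htop
    apply hnc
    rw [SimpleGraph.connected_iff]
    refine ⟨fun a b => ?_, ⟨e₀⟩⟩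
    have h1 := hcomp a (by rw [htop]; exact Subgroup.mem_top _)
    have h2 := hcomp b (by rw [htop]; exact Subgroup.mem_top _)
    exact h1.symm.trans h2
  · obtain ⟨g, hg⟩ := sylow_conj S (hinv d hd)
    refine ⟨((g⁻¹ : G) : G ⧸ H), ?_, ?_⟩
    · show d • ((g⁻¹ : G) : G ⧸ H) = _
      rw [mk_fix, inv_inv]
      exact hSH hg
    · intro x hx
      obtain ⟨y, rfl⟩ := QuotientGroup.mk_surjective x
      have hx' : d • (y : G ⧸ H) = (y : G ⧸ H) := hx
      rw [mk_fix] at hx'
      have h1 : ((cj hD y⁻¹ ⟨d, hd⟩ : D) : G) ∈ H := by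
        show y⁻¹ * d * (y⁻¹)⁻¹ ∈ H
        rw [inv_inv]
        exact hx'
      have h2 : ((cj hD g ⟨d, hd⟩ : D) : G) ∈ H := hSH hg
      have h3 := hcomp _ h1
      have h4 := hcomp _ h2
      have h5 := reach_cj hD y h3
      rw [← cj_mul, mul_inv_cancel, cj_one] at h5
      have h6 := reach_cj hD g⁻¹ h4
      rw [← cj_mul, inv_mul_cancel, cj_one] at h6
      have h7 := reach_cj hD g (h6.trans h5.symm)
      rw [← cj_mul, ← cj_mul, mul_inv_cancel, cj_one] at h7
      -- `g y ∈ H`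
      have h8 : g * y ∈ H := h7
      rw [eq_comm, QuotientGroup.eq, inv_inv]
      exact h8

theorem tame [Finite G] {D : Set G} (hD : IsNormalInvolutionSet D) (hcen : HasCentral D) :
    ¬ (commGraph D).Connected ↔
      ∃ H : Subgroup G, H ≠ ⊤ ∧ ∀ d ∈ D, ∃! x : G ⧸ H, d • x = x := by
  constructor
  · exact tame_forward hD.2.1 hD.2.2 hcen
  · rintro ⟨H, hH, hu⟩ hc
    exact not_connected_of_fix (N := ⊥) hD.1 hD.2.2 hH
      (fun n hn x => by rw [Subgroup.mem_bot] at hn; rw [hn, one_smul]) hu (connected_bot hc)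

end tame

section soluble

/-- an odd minimal normal subgroup or an elementary abelian 2-group -/
theorem minimal_two {G : Type} [Group G] [Finite G] {A : Subgroup G} (hA : A.Normal)
    (hab : ∀ a ∈ A, ∀ b ∈ A, a * b = b * a)
    (hmin : ∀ B : Subgroup G, B.Normal → B ≤ A → B = ⊥ ∨ B = A) :
    Odd (Nat.card A) ∨ ∀ a ∈ A, a * a = 1 := by
  let B : Subgroup G :=
    { carrier := {a | a ∈ A ∧ a * a = 1}
      mul_mem' := by
        rintro a b ⟨ha, ha'⟩ ⟨hb, hb'⟩
        refine ⟨A.mul_mem ha hb, ?_⟩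
        have : a * b * (a * b) = (a * a) * (b * b) := by
          rw [mul_assoc a b, ← mul_assoc b a b, hab b hb a ha]
          group
        rw [this, ha', hb', one_mul]
      one_mem' := ⟨A.one_mem, by rw [one_mul]⟩
      inv_mem' := by
        rintro a ⟨ha, ha'⟩
        refine ⟨A.inv_mem ha, ?_⟩
        rw [← mul_inv_rev, ha', inv_one] }
  have hB : B.Normal := by
    constructor
    rintro a ⟨ha, ha'⟩ g
    refine ⟨hA.conj_mem a ha g, ?_⟩
    have : g * a * g⁻¹ * (g * a * g⁻¹) = g * (a * a) * g⁻¹ := by group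
    rw [this, ha', mul_one, mul_inv_cancel]
  rcases hmin B hB (fun a ha => ha.1) with h | h
  · left
    rw [← Nat.not_even_iff_odd, even_iff_two_dvd]
    intro h2
    have : Fact (Nat.Prime 2) := ⟨Nat.prime_two⟩
    obtain ⟨x, hx⟩ := exists_prime_orderOf_dvd_card' (G := A) 2 h2
    have h3 : (x : G) ∈ B := by
      refine ⟨x.2, ?_⟩
      have h4 : x ^ 2 = 1 := by rw [← hx, pow_orderOf_eq_one]
      have := congrArg Subtype.val h4
      rw [pow_two] at this
      exact this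
    rw [h, Subgroup.mem_bot] at h3
    have h5 : x = 1 := Subtype.ext h3
    rw [h5, orderOf_one] at hx
    omega
  · right
    intro a ha
    rw [← h] at ha
    exact ha.2

theorem soluble_forward : ∀ (n : ℕ) (G : Type) [Group G] [Finite G] (D : Set G), Group.IsSolvable G →
    IsNormalInvolutionSet D → HasCentral D → Nat.card G = n → ¬ (commGraph D).Connected →
    ∃ p : ℕ, p.Prime ∧ Odd p ∧ ∃ φ : ↥(Subgroup.closure D) →* DihedralGroup p,
      Function.Surjective φ ∧ ∀ (d : G) (hd : d ∈ D), ∃ i : ZMod p,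
        φ ⟨d, Subgroup.subset_closure hd⟩ = DihedralGroup.sr i := by
  intro n
  induction n using Nat.strong_induction_on with
  | _ n ih =>
  intro G _ _ D hsol hDi hcen hcard hnc
  obtain ⟨d₁, hd₁⟩ := hDi.1
  have htop : (⊤ : Subgroup G) ≠ ⊥ := by
    intro h
    have h1 : d₁ ∈ (⊥ : Subgroup G) := by rw [← h]; exact Subgroup.mem_top _
    rw [Subgroup.mem_bot] at h1
    have h2 := hDi.2.1 d₁ hd₁
    rw [h1, orderOf_one] at h2
    omega
  obtain ⟨A, hA, -, hAne, hmin⟩ := exists_minimal_normal (N := (⊤ : Subgroup G)) inferInstance htop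
  have hsolA : Group.IsSolvable ↥A :=
    Group.isSolvable_of_isSolvable_injective A.subtype_injective
  have hab := minimal_abelian hA hAne hsolA hmin
  -- the induction step
  have hcardlt : Nat.card (G ⧸ A) < n := by
    have h1 := Subgroup.card_eq_card_quotient_mul_card_subgroup A
    have h2 : 1 < Nat.card A := by
      rw [Subgroup.one_lt_card_iff_ne_bot]
      exact hAne
    have h3 : 0 < Nat.card (G ⧸ A) := Nat.card_pos
    rw [← hcard, h1]
    nlinarith
  have hsolQ : Group.IsSolvable (G ⧸ A) :=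
    Group.isSolvable_of_surjective (QuotientGroup.mk'_surjective A)
  have step : (∀ d ∈ D, d ∉ A) → ¬ (commGraph ((QuotientGroup.mk' A) '' D)).Connected →
      ∃ p : ℕ, p.Prime ∧ Odd p ∧ ∃ φ : ↥(Subgroup.closure D) →* DihedralGroup p,
      Function.Surjective φ ∧ ∀ (d : G) (hd : d ∈ D), ∃ i : ZMod p,
        φ ⟨d, Subgroup.subset_closure hd⟩ = DihedralGroup.sr i := by
    intro hDA hncQ
    have hDQ : IsNormalInvolutionSet ((QuotientGroup.mk' A) '' D) := by
      refine ⟨hDi.1.image _, ?_, ?_⟩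
      · rintro _ ⟨d, hd, rfl⟩
        refine orderOf_eq_prime ?_ ?_
        · rw [← map_pow, ← hDi.2.1 d hd, pow_orderOf_eq_one, map_one]
        · intro h
          exact hDA d hd ((QuotientGroup.eq_one_iff d).1 h)
      · rintro _ ⟨d, hd, rfl⟩ g
        obtain ⟨x, rfl⟩ := QuotientGroup.mk'_surjective A g
        exact ⟨x⁻¹ * d * x, hDi.2.2 d hd x, by simp⟩
    have hcQ : HasCentral ((QuotientGroup.mk' A) '' D) := by
      obtain ⟨d, hd, S, hdS, hS⟩ := hcen
      refine ⟨_, ⟨d, hd, rfl⟩, S.mapSurjective (QuotientGroup.mk'_surjective A), ?_, ?_⟩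
      · rw [← SetLike.mem_coe, ← Sylow.coe_coe, Sylow.coe_mapSurjective]
        exact ⟨d, hdS, rfl⟩
      · intro s hs
        rw [← SetLike.mem_coe, ← Sylow.coe_coe, Sylow.coe_mapSurjective] at hs
        obtain ⟨t, ht, rfl⟩ := hs
        rw [← map_mul, hS t ht, map_mul]
    obtain ⟨p, hp, hpodd, φ, hφ, hφD⟩ := ih _ hcardlt (G ⧸ A) _ hsolQ hDQ hcQ rfl hncQ
    have hmap : ∀ g ∈ Subgroup.closure D,
        QuotientGroup.mk' A g ∈ Subgroup.closure ((QuotientGroup.mk' A) '' D) := by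
      intro g hg
      rw [← MonoidHom.map_closure]
      exact Subgroup.mem_map_of_mem _ hg
    let ψ : ↥(Subgroup.closure D) →* ↥(Subgroup.closure ((QuotientGroup.mk' A) '' D)) :=
      ((QuotientGroup.mk' A).comp (Subgroup.closure D).subtype).codRestrict _
        (fun g => hmap g g.2)
    refine ⟨p, hp, hpodd, φ.comp ψ, ?_, ?_⟩
    · rw [MonoidHom.coe_comp]
      refine hφ.comp ?_
      rintro ⟨y, hy⟩
      have hy' := hy
      rw [← MonoidHom.map_closure] at hy'
      obtain ⟨x, hx, rfl⟩ := hy'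
      exact ⟨⟨x, hx⟩, rfl⟩
    · intro d hd
      obtain ⟨i, hi⟩ := hφD (QuotientGroup.mk' A d) ⟨d, hd, rfl⟩
      exact ⟨i, hi⟩
  rcases minimal_two hA hab hmin with hodd | htwo
  · -- odd case
    rcases (odd_core D hDi A hsolA hodd).1 hnc with h | h
    · refine step ?_ h
      intro d hd hdA
      have h1 : (⟨d, hdA⟩ : A) ^ Nat.card A = 1 := pow_card_eq_one'
      have h2 : d ^ Nat.card A = 1 := congrArg Subtype.val h1
      have h3 := orderOf_dvd_of_pow_eq_one h2
      rw [hDi.2.1 d hd] at h3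
      obtain ⟨k, hk⟩ := hodd
      omega
    · exact h
  · -- the minimal normal subgroup is a 2-group
    obtain ⟨H, hH, hu⟩ := tame_forward hDi.2.1 hDi.2.2 hcen hnc
    obtain ⟨d₀, hd₀, S, hdS, hS⟩ := hcen
    obtain ⟨x₀, hx₀, hx₀u⟩ := hu d₀ hd₀
    have hAS : A ≤ S := by
      have hpA : IsPGroup 2 A := by
        rintro ⟨a, ha⟩
        refine ⟨1, ?_⟩
        apply Subtype.ext
        show a ^ (2 ^ 1) = 1
        rw [pow_one, pow_two, htwo a ha]
      obtain ⟨Q, hQ⟩ := hpA.exists_le_sylow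
      obtain ⟨h, hh⟩ := MulAction.exists_smul_eq G Q S
      intro a ha
      have h1 : h⁻¹ * a * (h⁻¹)⁻¹ ∈ A := hA.conj_mem a ha h⁻¹
      have h2 : a ∈ ((h • Q : Sylow 2 G) : Set G) := by
        rw [Sylow.coe_smul]
        refine ⟨h⁻¹ * a * (h⁻¹)⁻¹, hQ h1, ?_⟩
        show h * (h⁻¹ * a * (h⁻¹)⁻¹) * h⁻¹ = a
        group
      rw [hh] at h2
      exact h2
    have hAx₀ : ∀ a ∈ A, a • x₀ = x₀ := by
      intro a ha
      apply hx₀u
      show d₀ • a • x₀ = a • x₀
      rw [← mul_smul, ← hS a (hAS ha), mul_smul, hx₀]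
    have hAfix : ∀ a ∈ A, ∀ x : G ⧸ H, a • x = x := by
      intro a ha x
      obtain ⟨g, rfl⟩ := MulAction.exists_smul_eq G x₀ x
      have h1 : g⁻¹ * a * (g⁻¹)⁻¹ ∈ A := hA.conj_mem a ha g⁻¹
      have h2 := hAx₀ _ h1
      have h3 : a • g • x₀ = g • (g⁻¹ * a * (g⁻¹)⁻¹) • x₀ := by
        rw [← mul_smul, ← mul_smul]
        congr 1
        group
      rw [h3, h2]
    refine step ?_ (not_connected_of_fix hDi.1 hDi.2.2 hH hAfix hu)
    intro d hd hdA
    obtain ⟨x, hx, hxu⟩ := hu d hd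
    apply hH
    apply top_of_fix (x₀ := x)
    intro g
    exact hxu _ (hAfix d hdA _)

theorem soluble {G : Type} [Group G] [Finite G] (hsol : Group.IsSolvable G) {D : Set G}
    (hD : IsNormalInvolutionSet D) (hcen : HasCentral D) :
    ¬ (commGraph D).Connected ↔
    ∃ p : ℕ, p.Prime ∧ Odd p ∧ ∃ φ : ↥(Subgroup.closure D) →* DihedralGroup p,
      Function.Surjective φ ∧ ∀ (d : G) (hd : d ∈ D), ∃ i : ZMod p,
        φ ⟨d, Subgroup.subset_closure hd⟩ = DihedralGroup.sr i := by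
  constructor
  · exact soluble_forward _ G D hsol hD hcen rfl
  · rintro ⟨p, hp, hpodd, φ, hφ, hφD⟩
    exact not_connected_of_dihedral hp hpodd φ hφ hφD

end soluble

end Pool.Agent.Paf8U
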